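import Pool.Agent.Q181.Aval.Real

/-! Sandpile dynamics on digraphs and avalanche complexes: every finite simplicial complex is an
avalanche complex up to homotopy. -/

set_option autoImplicit false

namespace Q181.Aval

section defs

variable {V : Type*} (G : Digraph V)

/-- The out-degree. -/
noncomputable def outdeg (v : V) : ℕ := {w : V | G.Adj v w}.ncard

/-- `v` is a non-sink vertex that is unstable in the configuration `c`. -/
def Fires (c : V → ℕ) (v : V) : Prop := 0 < outdeg G v ∧ outdeg G v ≤ c v

open Classical in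
/-- One step of the parallel firing dynamics. -/
noncomputable def stepConf (c : V → ℕ) : V → ℕ := fun v =>
  c v - (if Fires G c v then outdeg G v else 0) + {u : V | Fires G c u ∧ G.Adj u v}.ncard

/-- The configuration at time `t`. -/
noncomputable def conf (c₀ : V → ℕ) (t : ℕ) : V → ℕ := (stepConf G)^[t] c₀

/-- The avalanche complex: the nonempty subsets of the firing sets. -/
def avalanche (c₀ : V → ℕ) : Set (Finset V) :=
  {s | s.Nonempty ∧ ∃ t : ℕ, ∀ v ∈ s, Fires G (conf G c₀ t) v}

/-- The digraph has no loops and its underlying undirected graph is connected. -/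
def LooplessConnected : Prop := (∀ v, ¬ G.Adj v v) ∧ (SimpleGraph.fromRel G.Adj).Connected

end defs

section construction

variable {W : Type} {N : ℕ}

/-- The vertices: a sink `none`, the vertices of the complex and the delay lines. -/
abbrev Vx (W : Type) (N : ℕ) : Type := Option (W ⊕ (W × Fin N × Fin N))

/-- The unique out-neighbour of a non-sink vertex. -/
def nxt : W ⊕ (W × Fin N × Fin N) → Vx W N
  | .inl _ => none
  | .inr (w, t, s) =>
    if h : (s : ℕ) + 1 < t then some (.inr (w, t, ⟨s + 1, h.trans t.2⟩))
    else if (s : ℕ) + 1 = t then some (.inl w) else none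

theorem nxt_inr (w : W) (t s : Fin N) : nxt (.inr (w, t, s)) =
    if h : (s : ℕ) + 1 < t then some (.inr (w, t, ⟨s + 1, h.trans t.2⟩))
    else if (s : ℕ) + 1 = t then some (.inl w) else (none : Vx W N) := rfl

/-- The digraph. -/
def gr (W : Type) (N : ℕ) : Digraph (Vx W N) where
  Adj a b := ∃ x, a = some x ∧ b = nxt x

/-- The firing set at time `t`. -/
def Fset (G : Fin N → Finset W) (t : ℕ) : W ⊕ (W × Fin N × Fin N) → Prop
  | .inl w => ∃ h : t < N, w ∈ G ⟨t, h⟩
  | .inr (w, t', s) => (s : ℕ) = t ∧ (s : ℕ) < t' ∧ w ∈ G t'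

open Classical in
/-- The initial configuration. -/
noncomputable def c0 (G : Fin N → Finset W) : Vx W N → ℕ
  | none => 0
  | some x => if Fset G 0 x then 1 else 0

theorem outdeg_some (x : W ⊕ (W × Fin N × Fin N)) : outdeg (gr W N) (some x) = 1 := by
  have : {w : Vx W N | (gr W N).Adj (some x) w} = {nxt x} := by
    ext w
    simp only [Set.mem_setOf_eq, Set.mem_singleton_iff]
    constructor
    · rintro ⟨y, hy, rfl⟩
      rw [Option.some_injective _ hy]
    · rintro rfl
      exact ⟨x, rfl, rfl⟩
  rw [outdeg, this, Set.ncard_singleton]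

theorem outdeg_none : outdeg (gr W N) none = 0 := by
  have : {w : Vx W N | (gr W N).Adj none w} = ∅ := by
    ext w
    simp only [Set.mem_setOf_eq, Set.mem_empty_iff_false, iff_false]
    rintro ⟨y, hy, -⟩
    exact absurd hy (by simp)
  rw [outdeg, this, Set.ncard_empty]

theorem fires_iff (c : Vx W N → ℕ) (x : W ⊕ (W × Fin N × Fin N)) :
    Fires (gr W N) c (some x) ↔ 1 ≤ c (some x) := by
  rw [Fires, outdeg_some]
  simp

theorem not_fires_none (c : Vx W N → ℕ) : ¬ Fires (gr W N) c none := by
  rw [Fires, outdeg_none]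
  simp

/-- The predecessors that fire. -/
theorem pred_ncard (G : Fin N → Finset W) (t : ℕ) (x : W ⊕ (W × Fin N × Fin N)) :
    (Fset G (t + 1) x →
      {u : Vx W N | (∃ y, u = some y ∧ Fset G t y) ∧ (gr W N).Adj u (some x)}.ncard = 1) ∧
    (¬ Fset G (t + 1) x →
      {u : Vx W N | (∃ y, u = some y ∧ Fset G t y) ∧ (gr W N).Adj u (some x)} = ∅) := by
  -- the only possible predecessors
  have key : ∀ y : W ⊕ (W × Fin N × Fin N), nxt y = some x → Fset G t y →
      Fset G (t + 1) x ∧ ∀ y', nxt y' = some x → Fset G t y' → y' = y := by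
    intro y hy hF
    rcases y with w | ⟨w, t', s⟩
    · exact absurd hy (by simp [nxt])
    · obtain ⟨hs, hst, hw⟩ := hF
      rw [nxt_inr] at hy
      by_cases h1 : (s : ℕ) + 1 < t'
      · rw [dif_pos h1] at hy
        have hx := (Option.some_injective _ hy).symm
        subst hx
        refine ⟨⟨by show (s : ℕ) + 1 = t + 1; omega, h1, hw⟩, ?_⟩
        intro y' hy' hF'
        rcases y' with w' | ⟨w', t'', s'⟩
        · exact absurd hy' (by simp [nxt])
        · rw [nxt_inr] at hy'
          by_cases h2 : (s' : ℕ) + 1 < t''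
          · rw [dif_pos h2] at hy'
            have := Sum.inr_injective (Option.some_injective _ hy')
            simp only [Prod.mk.injEq, Fin.mk.injEq] at this
            obtain ⟨h3, h4, h5⟩ := this
            have : s' = s := Fin.ext (by omega)
            rw [h3, h4, this]
          · rw [dif_neg h2] at hy'
            by_cases h3 : (s' : ℕ) + 1 = t''
            · rw [if_pos h3] at hy'
              exact absurd (Option.some_injective _ hy') (by simp)
            · rw [if_neg h3] at hy'
              exact absurd hy' (by simp)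
      · rw [dif_neg h1] at hy
        have h2 : (s : ℕ) + 1 = t' := by omega
        rw [if_pos h2] at hy
        have hx := (Option.some_injective _ hy).symm
        subst hx
        have htt : t' = ⟨t + 1, by have := t'.2; omega⟩ := Fin.ext (by show (t' : ℕ) = t + 1; omega)
        refine ⟨⟨by have := t'.2; omega, by rw [← htt]; exact hw⟩, ?_⟩
        intro y' hy' hF'
        rcases y' with w' | ⟨w', t'', s'⟩
        · exact absurd hy' (by simp [nxt])
        · obtain ⟨hs', hst', hw'⟩ := hF'
          rw [nxt_inr] at hy'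
          by_cases h4 : (s' : ℕ) + 1 < t''
          · rw [dif_pos h4] at hy'
            exact absurd (Option.some_injective _ hy') (by simp)
          · rw [dif_neg h4] at hy'
            have h5 : (s' : ℕ) + 1 = t'' := by omega
            rw [if_pos h5] at hy'
            have h6 := Sum.inl_injective (Option.some_injective _ hy')
            have h7 : s' = s := Fin.ext (by omega)
            have h8 : t'' = t' := Fin.ext (by omega)
            rw [h6, h7, h8]
  constructor
  · intro hx
    rw [Set.ncard_eq_one]
    -- existence of a predecessor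
    obtain ⟨y, hy, hF⟩ : ∃ y, nxt y = some x ∧ Fset G t y := by
      rcases x with w | ⟨w, t', s⟩
      · obtain ⟨h, hw⟩ := hx
        refine ⟨.inr (w, ⟨t + 1, h⟩, ⟨t, by omega⟩), ?_, rfl, Nat.lt_succ_self t, hw⟩
        simp [nxt]
      · obtain ⟨hs, hst, hw⟩ := hx
        refine ⟨.inr (w, t', ⟨t, by have := s.2; omega⟩), ?_, rfl, ?_, hw⟩
        · have h1 : t + 1 < (t' : ℕ) := by omega
          rw [nxt_inr]
          rw [dif_pos h1]
          congr 3
          exact congrArg _ (Fin.ext hs.symm)
        · show t < (t' : ℕ)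
          omega
    refine ⟨some y, ?_⟩
    ext u
    simp only [Set.mem_setOf_eq, Set.mem_singleton_iff]
    constructor
    · rintro ⟨⟨y', rfl, hF'⟩, z, hz, hz'⟩
      rw [← Option.some_injective _ hz] at hz'
      rw [(key y hy hF).2 y' hz'.symm hF']
    · rintro rfl
      exact ⟨⟨y, rfl, hF⟩, y, rfl, hy.symm⟩
  · intro hx
    ext u
    simp only [Set.mem_setOf_eq, Set.mem_empty_iff_false, iff_false]
    rintro ⟨⟨y, rfl, hF⟩, z, hz, hz'⟩
    rw [← Option.some_injective _ hz] at hz'
    exact hx (key y hz'.symm hF).1

open Classical in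
theorem conf_eq (G : Fin N → Finset W) (t : ℕ) : ∀ x,
    conf (gr W N) (c0 G) t (some x) = if Fset G t x then 1 else 0 := by
  induction t with
  | zero => intro x; rfl
  | succ t ih =>
    intro x
    have h1 : conf (gr W N) (c0 G) (t + 1) = stepConf (gr W N) (conf (gr W N) (c0 G) t) :=
      Function.iterate_succ_apply' _ _ _
    have h2 : ∀ y, Fires (gr W N) (conf (gr W N) (c0 G) t) (some y) ↔ Fset G t y := by
      intro y
      rw [fires_iff, ih]
      split_ifs with h <;> simp [h]
    have h3 : {u : Vx W N | Fires (gr W N) (conf (gr W N) (c0 G) t) u ∧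
        (gr W N).Adj u (some x)} =
        {u : Vx W N | (∃ y, u = some y ∧ Fset G t y) ∧ (gr W N).Adj u (some x)} := by
      ext u
      simp only [Set.mem_setOf_eq]
      refine and_congr_left fun _ => ?_
      rcases u with _ | y
      · constructor
        · intro h; exact absurd h (not_fires_none _)
        · rintro ⟨y, hy, -⟩; exact absurd hy (by simp)
      · rw [h2]
        constructor
        · intro h; exact ⟨y, rfl, h⟩
        · rintro ⟨y', hy', h⟩
          rw [Option.some_injective _ hy']
          exact h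
    rw [h1, stepConf, h3, outdeg_some, ih]
    have h4 : (if Fset G t x then 1 else 0) -
        (if Fires (gr W N) (conf (gr W N) (c0 G) t) (some x) then 1 else 0) = 0 := by
      rw [if_congr (h2 x) rfl rfl]
      exact Nat.sub_self _
    rw [h4, zero_add]
    by_cases hx : Fset G (t + 1) x
    · rw [if_pos hx]
      exact (pred_ncard G t x).1 hx
    · rw [if_neg hx, (pred_ncard G t x).2 hx, Set.ncard_empty]

theorem fires_conf (G : Fin N → Finset W) (t : ℕ) (v : Vx W N) :
    Fires (gr W N) (conf (gr W N) (c0 G) t) v ↔ ∃ x, v = some x ∧ Fset G t x := by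
  classical
  rcases v with _ | x
  · constructor
    · intro h; exact absurd h (not_fires_none _)
    · rintro ⟨y, hy, -⟩; exact absurd hy (by simp)
  · rw [fires_iff, conf_eq]
    constructor
    · intro h
      refine ⟨x, rfl, ?_⟩
      by_contra hx
      rw [if_neg hx] at h
      omega
    · rintro ⟨y, hy, h⟩
      rw [Option.some_injective _ hy, if_pos h]

theorem looplessConnected : LooplessConnected (gr W N) := by
  have hne : ∀ x : W ⊕ (W × Fin N × Fin N), nxt x ≠ some x := by
    intro x hx
    rcases x with w | ⟨w, t, s⟩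
    · exact absurd hx (by simp [nxt])
    · rw [nxt_inr] at hx
      split_ifs at hx with h1 h2
      · have := Sum.inr_injective (Option.some_injective _ hx)
        simp only [Prod.mk.injEq] at this
        have h3 := congrArg (fun z : Fin N => (z : ℕ)) this.2.2
        simp only at h3
        omega
      · exact absurd (Option.some_injective _ hx) (by simp)
  refine ⟨?_, ?_⟩
  · rintro v ⟨x, rfl, hx⟩
    exact hne x hx.symm
  · have hadj : ∀ x : W ⊕ (W × Fin N × Fin N),
        (SimpleGraph.fromRel (gr W N).Adj).Adj (some x) (nxt x) := by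
      intro x
      rw [SimpleGraph.fromRel_adj]
      exact ⟨(hne x).symm, Or.inl ⟨x, rfl, rfl⟩⟩
    have h1 : ∀ w : W, (SimpleGraph.fromRel (gr W N).Adj).Reachable (some (.inl w)) none :=
      fun w => (hadj (.inl w)).reachable
    have h2 : ∀ (k : ℕ) (w : W) (t s : Fin N), (t : ℕ) - s = k →
        (SimpleGraph.fromRel (gr W N).Adj).Reachable (some (.inr (w, t, s))) none := by
      intro k
      induction k with
      | zero =>
        intro w t s hk
        have h3 := hadj (.inr (w, t, s))
        have h4 : nxt (.inr (w, t, s)) = (none : Vx W N) := by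
          rw [nxt_inr]
          rw [dif_neg (by omega), if_neg (by omega)]
        rw [h4] at h3
        exact h3.reachable
      | succ k ih =>
        intro w t s hk
        have h3 := (hadj (.inr (w, t, s))).reachable
        refine h3.trans ?_
        rw [nxt_inr]
        by_cases h5 : (s : ℕ) + 1 < t
        · rw [dif_pos h5]
          exact ih w t ⟨s + 1, h5.trans t.2⟩ (by show (t : ℕ) - (s + 1) = k; omega)
        · rw [dif_neg h5]
          split_ifs
          · exact h1 w
          · exact SimpleGraph.Reachable.refl _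
    have h3 : ∀ v : Vx W N, (SimpleGraph.fromRel (gr W N).Adj).Reachable v none := by
      intro v
      rcases v with _ | w | ⟨w, t, s⟩
      · exact SimpleGraph.Reachable.refl _
      · exact h1 w
      · exact h2 _ w t s rfl
    haveI : Nonempty (Vx W N) := ⟨none⟩
    exact ⟨fun u v => (h3 u).trans (h3 v).symm⟩

/-- The complex generated by the sets `G t`. -/
def gen (G : Fin N → Finset W) : Set (Finset W) := {s | s.Nonempty ∧ ∃ t, s ⊆ G t}

theorem main_gen [Fintype W] (G : Fin N → Finset W) (hG : ∀ t, (G t).Nonempty) (hN : 0 < N) :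
    Nonempty (ContinuousMap.HomotopyEquiv
      (Realization (avalanche (gr W N) (c0 G))) (Realization (gen G))) := by
  classical
  let r : Vx W N → W
    | none => (hG ⟨0, hN⟩).choose
    | some (.inl w) => w
    | some (.inr (_, _, s)) => (hG s).choose
  refine homotopyEquiv_of_contiguous (fun w => (some (.inl w) : Vx W N)) r (fun w => rfl)
    ?_ ?_ ?_
  · rintro τ ⟨⟨w₀, hw₀⟩, t, hτ⟩
    refine ⟨τ.image fun w => (some (.inl w) : Vx W N), ⟨⟨_, Finset.mem_image_of_mem _ hw₀⟩, t, ?_⟩,
      fun w hw => Finset.mem_image_of_mem _ hw⟩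
    intro v hv
    obtain ⟨w, hw, rfl⟩ := Finset.mem_image.1 hv
    rw [fires_conf]
    exact ⟨.inl w, rfl, t.2, hτ hw⟩
  · rintro s ⟨⟨v₀, hv₀⟩, t, hs⟩
    have htN : t < N := by
      obtain ⟨x, rfl, hx⟩ := (fires_conf G t v₀).1 (hs v₀ hv₀)
      rcases x with w | ⟨w, t', s'⟩
      · exact hx.1
      · have h1 := hx.1
        have h2 := s'.2
        omega
    refine ⟨G ⟨t, htN⟩, ⟨hG _, _, subset_rfl⟩, ?_⟩
    intro v hv
    obtain ⟨x, rfl, hx⟩ := (fires_conf G t v).1 (hs v hv)
    rcases x with w | ⟨w, t', s'⟩
    · exact hx.2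
    · have h1 : s' = ⟨t, htN⟩ := Fin.ext hx.1
      show (hG s').choose ∈ _
      rw [h1]
      exact (hG _).choose_spec
  · rintro s ⟨⟨v₀, hv₀⟩, t, hs⟩
    have htN : t < N := by
      obtain ⟨x, rfl, hx⟩ := (fires_conf G t v₀).1 (hs v₀ hv₀)
      rcases x with w | ⟨w, t', s'⟩
      · exact hx.1
      · have h1 := hx.1
        have h2 := s'.2
        omega
    refine ⟨s ∪ (G ⟨t, htN⟩).image fun w => (some (.inl w) : Vx W N),
      ⟨⟨v₀, Finset.mem_union_left _ hv₀⟩, t, ?_⟩, ?_⟩
    · intro v hv
      rcases Finset.mem_union.1 hv with hv | hv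
      · exact hs v hv
      · obtain ⟨w, hw, rfl⟩ := Finset.mem_image.1 hv
        rw [fires_conf]
        exact ⟨.inl w, rfl, htN, hw⟩
    · intro v hv
      refine ⟨Finset.mem_union_left _ hv, Finset.mem_union_right _ (Finset.mem_image_of_mem _ ?_)⟩
      obtain ⟨x, rfl, hx⟩ := (fires_conf G t v).1 (hs v hv)
      rcases x with w | ⟨w, t', s'⟩
      · exact hx.2
      · have h1 : s' = ⟨t, htN⟩ := Fin.ext hx.1
        show (hG s').choose ∈ _
        rw [h1]
        exact (hG _).choose_spec

/-- Every nonempty finite simplicial complex is an avalanche complex up to homotopy. -/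
theorem main_complex [Fintype W] (K : Set (Finset W)) (hK : ∀ s ∈ K, s.Nonempty)
    (hdown : ∀ s ∈ K, ∀ s' : Finset W, s' ⊆ s → s'.Nonempty → s' ∈ K) (hne : K.Nonempty) :
    ∃ (V : Type) (_ : Fintype V) (G : Digraph V) (c₀ : V → ℕ), LooplessConnected G ∧
      Nonempty (ContinuousMap.HomotopyEquiv (Realization (avalanche G c₀)) (Realization K)) := by
  classical
  haveI : Finite K := Set.toFinite K
  obtain ⟨N, ⟨e⟩⟩ := Finite.exists_equiv_fin K
  let G : Fin N → Finset W := fun t => (e.symm t).1
  have hN : 0 < N := by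
    obtain ⟨s, hs⟩ := hne
    exact Nat.lt_of_le_of_lt (Nat.zero_le _) (e ⟨s, hs⟩).2
  have hgen : gen G = K := by
    ext s
    constructor
    · rintro ⟨h1, t, h2⟩
      exact hdown _ (e.symm t).2 s h2 h1
    · intro hs
      refine ⟨hK s hs, e ⟨s, hs⟩, ?_⟩
      show s ⊆ (e.symm (e ⟨s, hs⟩)).1
      rw [Equiv.symm_apply_apply]
  refine ⟨Vx W N, inferInstance, gr W N, c0 G, looplessConnected, ?_⟩
  have h := main_gen G (fun t => hK _ (e.symm t).2) hN
  rwa [hgen] at h

end construction

end Q181.Aval
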