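import Mathlib

/-! Geometric realisations of finite simplicial complexes. -/

set_option autoImplicit false

namespace Q181.Aval

open scoped Topology

section

variable {V : Type*} [Fintype V]

/-- The geometric realisation of the simplicial complex on the finite vertex set `V` with set of
simplices `K`: the union of the closed simplices spanned by the members of `K` in the space of
functions `V → ℝ` (barycentric coordinates). -/
def Realization (K : Set (Finset V)) : Type _ :=
  {x : V → ℝ // (∀ v, 0 ≤ x v) ∧ ∑ v, x v = 1 ∧ ∃ σ ∈ K, ∀ v, x v ≠ 0 → v ∈ σ}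

/-- The subspace topology. -/
instance instTopRealization (K : Set (Finset V)) : TopologicalSpace (Realization K) :=
  instTopologicalSpaceSubtype

instance instT2Realization (K : Set (Finset V)) : T2Space (Realization K) :=
  inferInstanceAs (T2Space {x : V → ℝ // (∀ v, 0 ≤ x v) ∧ ∑ v, x v = 1 ∧
    ∃ σ ∈ K, ∀ v, x v ≠ 0 → v ∈ σ})

end

variable {V W : Type*} [Fintype V] [Fintype W]

open Classical in
/-- Push-forward of weights. -/
noncomputable def push (f : V → W) (x : V → ℝ) : W → ℝ := fun w => ∑ v, if f v = w then x v else 0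

theorem push_nonneg (f : V → W) {x : V → ℝ} (hx : ∀ v, 0 ≤ x v) (w : W) : 0 ≤ push f x w := by
  classical
  refine Finset.sum_nonneg fun v _ => ?_
  split_ifs
  · exact hx v
  · exact le_rfl

theorem push_sum (f : V → W) (x : V → ℝ) : ∑ w, push f x w = ∑ v, x v := by
  classical
  unfold push
  rw [Finset.sum_comm]
  refine Finset.sum_congr rfl fun v _ => ?_
  rw [Finset.sum_ite_eq]
  simp

theorem push_ne_zero (f : V → W) {x : V → ℝ} {w : W} (h : push f x w ≠ 0) :
    ∃ v, f v = w ∧ x v ≠ 0 := by
  classical
  obtain ⟨v, -, hv⟩ := Finset.exists_ne_zero_of_sum_ne_zero h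
  by_cases h1 : f v = w
  · rw [if_pos h1] at hv
    exact ⟨v, h1, hv⟩
  · rw [if_neg h1] at hv
    exact absurd rfl hv

theorem continuous_push (f : V → W) : Continuous (push f) := by
  classical
  refine continuous_pi fun w => ?_
  unfold push
  refine continuous_finsetSum _ fun v _ => ?_
  split_ifs
  · exact continuous_apply v
  · exact continuous_const

theorem push_push {U : Type*} [Fintype U] (f : V → W) (g : W → U) (x : V → ℝ) :
    push g (push f x) = push (g ∘ f) x := by
  classical
  funext u
  unfold push
  have h1 : ∀ w, (if g w = u then ∑ v, (if f v = w then x v else 0) else 0) =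
      ∑ v, (if f v = w then (if g w = u then x v else 0) else 0) := by
    intro w
    by_cases h : g w = u
    · simp [h]
    · simp [h]
  rw [Finset.sum_congr rfl fun w _ => h1 w, Finset.sum_comm]
  refine Finset.sum_congr rfl fun v _ => ?_
  rw [Finset.sum_ite_eq]
  simp

theorem push_id (x : V → ℝ) : push (fun v : V => v) x = x := by
  classical
  funext w
  unfold push
  rw [Finset.sum_ite_eq']
  simp

/-- The map of realisations induced by a vertex map that takes simplices into simplices. -/
noncomputable def realMap {K : Set (Finset V)} {L : Set (Finset W)} (f : V → W)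
    (h : ∀ σ ∈ K, ∃ τ ∈ L, ∀ v ∈ σ, f v ∈ τ) : C(Realization K, Realization L) where
  toFun x := ⟨push f x.1, push_nonneg f x.2.1, (push_sum f x.1).trans x.2.2.1, by
    obtain ⟨σ, hσ, hx⟩ := x.2.2.2
    obtain ⟨τ, hτ, hστ⟩ := h σ hσ
    refine ⟨τ, hτ, fun w hw => ?_⟩
    obtain ⟨v, rfl, hv⟩ := push_ne_zero f hw
    exact hστ v (hx v hv)⟩
  continuous_toFun := by
    refine Continuous.subtype_mk ?_ _
    exact (continuous_push f).comp continuous_subtype_val

/-- A vertex map `r` with a section `j`, contiguous to the identity, induces a homotopy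
equivalence. -/
theorem homotopyEquiv_of_contiguous {K : Set (Finset V)} {L : Set (Finset W)} (j : W → V)
    (r : V → W) (hrj : ∀ w, r (j w) = w) (h1 : ∀ τ ∈ L, ∃ σ ∈ K, ∀ w ∈ τ, j w ∈ σ)
    (h2 : ∀ σ ∈ K, ∃ τ ∈ L, ∀ v ∈ σ, r v ∈ τ)
    (h3 : ∀ σ ∈ K, ∃ σ' ∈ K, ∀ v ∈ σ, v ∈ σ' ∧ j (r v) ∈ σ') :
    Nonempty (ContinuousMap.HomotopyEquiv (Realization K) (Realization L)) := by
  classical
  -- the straight-line homotopy
  have key : ∀ (t : unitInterval) (x : Realization K),
      (∀ v, 0 ≤ (1 - (t : ℝ)) * push j (push r x.1) v + (t : ℝ) * x.1 v) ∧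
      ∑ v, ((1 - (t : ℝ)) * push j (push r x.1) v + (t : ℝ) * x.1 v) = 1 ∧
      ∃ σ ∈ K, ∀ v, (1 - (t : ℝ)) * push j (push r x.1) v + (t : ℝ) * x.1 v ≠ 0 → v ∈ σ := by
    intro t x
    have ht0 := t.2.1
    have ht1 := t.2.2
    refine ⟨fun v => ?_, ?_, ?_⟩
    · have h4 := push_nonneg j (push_nonneg r x.2.1) v
      have h5 := x.2.1 v
      have h6 : 0 ≤ 1 - (t : ℝ) := by linarith
      positivity
    · rw [Finset.sum_add_distrib, ← Finset.mul_sum, ← Finset.mul_sum, push_sum, push_sum,
        x.2.2.1]
      ring
    · obtain ⟨σ, hσ, hx⟩ := x.2.2.2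
      obtain ⟨σ', hσ', hss⟩ := h3 σ hσ
      refine ⟨σ', hσ', fun v hv => ?_⟩
      by_cases h4 : x.1 v = 0
      · have h5 : push j (push r x.1) v ≠ 0 := by
          intro h5
          apply hv
          rw [h4, h5, mul_zero, mul_zero, add_zero]
        rw [push_push] at h5
        obtain ⟨u, rfl, hu⟩ := push_ne_zero _ h5
        exact (hss u (hx u hu)).2
      · exact (hss v (hx v h4)).1
  refine ⟨⟨realMap r h2, realMap j h1, ⟨⟨⟨fun p => ⟨_, key p.1 p.2⟩, ?_⟩, ?_, ?_⟩⟩, ?_⟩⟩
  · refine Continuous.subtype_mk ?_ _
    refine continuous_pi fun v => ?_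
    have hc1 : Continuous fun p : unitInterval × Realization K => ((p.1 : unitInterval) : ℝ) :=
      continuous_subtype_val.comp continuous_fst
    have hc2 : Continuous fun p : unitInterval × Realization K => p.2.1 :=
      continuous_subtype_val.comp continuous_snd
    refine Continuous.add (Continuous.mul (continuous_const.sub hc1) ?_) (Continuous.mul hc1 ?_)
    · exact (continuous_apply v).comp ((continuous_push j).comp ((continuous_push r).comp hc2))
    · exact (continuous_apply v).comp hc2
  · intro x
    apply Subtype.ext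
    funext v
    show (1 - ((0 : unitInterval) : ℝ)) * push j (push r x.1) v + ((0 : unitInterval) : ℝ) * x.1 v =
      push j (push r x.1) v
    simp
  · intro x
    apply Subtype.ext
    funext v
    show (1 - ((1 : unitInterval) : ℝ)) * push j (push r x.1) v + ((1 : unitInterval) : ℝ) * x.1 v = x.1 v
    simp
  · have : (realMap r h2).comp (realMap j h1) = ContinuousMap.id _ := by
      ext x : 1
      apply Subtype.ext
      show push r (push j x.1) = x.1
      rw [push_push]
      have : (r ∘ j) = fun w => w := funext hrj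
      rw [this, push_id]
    rw [this]

end Q181.Aval
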