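import Pool.Agent.Q181.Aval.Dyn

/-! Wedges of spheres as geometric realisations. -/

set_option autoImplicit false

namespace Q181.Aval

/-- The unit sphere `S^n`. -/
abbrev Sph (n : ℕ) : Type := Metric.sphere (0 : EuclideanSpace ℝ (Fin (n + 1))) 1

/-- The base point `(1, 0, …, 0)`. -/
noncomputable def base (n : ℕ) : Sph n :=
  ⟨EuclideanSpace.single 0 1, by simp⟩

/-- The disjoint union of a point and the spheres `S^{d_i}`. -/
abbrev PreWedge {m : ℕ} (d : Fin m → ℕ) : Type := Unit ⊕ (Σ i : Fin m, Sph (d i))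

/-- The wedge of the spheres `S^{d_i}`: the quotient (with the quotient topology) of the disjoint
union of a point and the spheres in which the base points of all spheres are identified with the
point. -/
def Wedge {m : ℕ} (d : Fin m → ℕ) : Type :=
  Quot fun a b : PreWedge d => ∃ i, a = Sum.inl () ∧ b = Sum.inr ⟨i, base (d i)⟩

/-- The quotient topology. -/
instance instTopWedge {m : ℕ} (d : Fin m → ℕ) : TopologicalSpace (Wedge d) :=
  instTopologicalSpaceQuot

section

variable {n : ℕ}

/-- The `ℓ¹` norm. -/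
noncomputable def l1 (u : EuclideanSpace ℝ (Fin (n + 1))) : ℝ := ∑ k, |u k|

theorem l1_pos {u : EuclideanSpace ℝ (Fin (n + 1))} (hu : u ≠ 0) : 0 < l1 u := by
  by_contra h
  have h1 : l1 u = 0 := le_antisymm (not_lt.1 h) (Finset.sum_nonneg fun k _ => abs_nonneg _)
  apply hu
  ext k
  rw [l1, Finset.sum_eq_zero_iff_of_nonneg fun k _ => abs_nonneg _] at h1
  simpa using h1 k (Finset.mem_univ k)

theorem sph_ne_zero (u : Sph n) : u.1 ≠ 0 := by
  intro h
  have := u.2
  rw [h] at this
  simp at this

/-- The barycentric coordinates of the point of the boundary of the cross-polytope in the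
direction `u`. -/
noncomputable def wt (u : EuclideanSpace ℝ (Fin (n + 1))) : Fin (n + 1) × Bool → ℝ
  | (k, true) => max (u k) 0 / l1 u
  | (k, false) => max (-u k) 0 / l1 u

theorem wt_nonneg (u : EuclideanSpace ℝ (Fin (n + 1))) (p : Fin (n + 1) × Bool) : 0 ≤ wt u p := by
  have h : 0 ≤ l1 u := Finset.sum_nonneg fun k _ => abs_nonneg _
  rcases p with ⟨k, _ | _⟩
  · exact div_nonneg (le_max_right _ _) h
  · exact div_nonneg (le_max_right _ _) h

theorem wt_sum {u : EuclideanSpace ℝ (Fin (n + 1))} (hu : u ≠ 0) : ∑ p, wt u p = 1 := by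
  rw [Fintype.sum_prod_type]
  have h1 : ∀ k, ∑ b, wt u (k, b) = |u k| / l1 u := by
    intro k
    rw [Fintype.sum_bool]
    show max (u k) 0 / l1 u + max (-u k) 0 / l1 u = _
    rw [← add_div]
    congr 1
    rcases le_total 0 (u k) with h | h
    · rw [max_eq_left h, max_eq_right (neg_nonpos.2 h), abs_of_nonneg h, add_zero]
    · rw [max_eq_right h, max_eq_left (neg_nonneg.2 h), abs_of_nonpos h, zero_add]
  rw [Finset.sum_congr rfl fun k _ => h1 k, ← Finset.sum_div]
  exact div_self (l1_pos hu).ne'

theorem continuous_wt : Continuous fun u : Sph n => wt u.1 := by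
  have hl : Continuous fun u : Sph n => l1 u.1 := by
    unfold l1
    refine continuous_finsetSum _ fun k _ => ?_
    exact ((EuclideanSpace.proj k).continuous.comp continuous_subtype_val).abs
  have hk : ∀ k, Continuous fun u : Sph n => (u.1 : EuclideanSpace ℝ (Fin (n + 1))) k := fun k =>
    (EuclideanSpace.proj k).continuous.comp continuous_subtype_val
  refine continuous_pi fun p => ?_
  rcases p with ⟨k, _ | _⟩
  · exact Continuous.div ((hk k).neg.max continuous_const) hl fun u => (l1_pos (sph_ne_zero u)).ne'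
  · exact Continuous.div ((hk k).max continuous_const) hl fun u => (l1_pos (sph_ne_zero u)).ne'

theorem wt_sub (u : EuclideanSpace ℝ (Fin (n + 1))) (k : Fin (n + 1)) :
    wt u (k, true) - wt u (k, false) = u k / l1 u := by
  show max (u k) 0 / l1 u - max (-u k) 0 / l1 u = _
  rw [← sub_div]
  congr 1
  rcases le_total 0 (u k) with h | h
  · rw [max_eq_left h, max_eq_right (neg_nonpos.2 h), sub_zero]
  · rw [max_eq_right h, max_eq_left (neg_nonneg.2 h), zero_sub, neg_neg]

/-- A unit vector is determined by its weights. -/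
theorem wt_injective {u v : Sph n} (h : wt u.1 = wt v.1) : u = v := by
  have h1 : ∀ k, (u.1 : EuclideanSpace ℝ (Fin (n + 1))) k / l1 u.1 = v.1 k / l1 v.1 := by
    intro k
    rw [← wt_sub, ← wt_sub, h]
  have hu := l1_pos (sph_ne_zero u)
  have hv := l1_pos (sph_ne_zero v)
  have h2 : u.1 = (l1 u.1 / l1 v.1) • v.1 := by
    ext k
    rw [PiLp.smul_apply, smul_eq_mul]
    have := h1 k
    field_simp at this ⊢
    linarith
  have h3 : ‖u.1‖ = 1 := by simpa using u.2
  have h4 : ‖v.1‖ = 1 := by simpa using v.2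
  rw [h2, norm_smul, h4, mul_one, Real.norm_of_nonneg (by positivity)] at h3
  apply Subtype.ext
  rw [h2, h3, one_smul]

/-- The base point is characterised by its weights. -/
theorem eq_base_of_wt {u : Sph n} (h : ∀ p : Fin (n + 1) × Bool, p ≠ (0, true) → wt u.1 p = 0) :
    u = base n := by
  apply wt_injective
  have hb : ∀ p : Fin (n + 1) × Bool, p ≠ (0, true) → wt (base n).1 p = 0 := by
    rintro ⟨k, _ | _⟩ hp
    · show max (-(EuclideanSpace.single 0 1 : EuclideanSpace ℝ (Fin (n + 1))) k) 0 / _ = 0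
      rw [EuclideanSpace.single_apply]
      split_ifs <;> simp
    · show max ((EuclideanSpace.single 0 1 : EuclideanSpace ℝ (Fin (n + 1))) k) 0 / _ = 0
      rw [EuclideanSpace.single_apply, if_neg]
      · simp
      · rintro rfl; exact hp rfl
  funext p
  by_cases hp : p = (0, true)
  · subst hp
    have h1 := wt_sum (sph_ne_zero u)
    have h2 := wt_sum (sph_ne_zero (base n))
    rw [Finset.sum_eq_single (0, true) (fun p _ hp => h p hp)
      (fun h => absurd (Finset.mem_univ _) h)] at h1
    rw [Finset.sum_eq_single (0, true) (fun p _ hp => hb p hp)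
      (fun h => absurd (Finset.mem_univ _) h)] at h2
    rw [h1, h2]
  · rw [h p hp, hb p hp]

theorem wt_base : ∀ p : Fin (n + 1) × Bool, p ≠ (0, true) → wt (base n).1 p = 0 := by
  rintro ⟨k, _ | _⟩ hp
  · show max (-(EuclideanSpace.single 0 1 : EuclideanSpace ℝ (Fin (n + 1))) k) 0 / _ = 0
    rw [EuclideanSpace.single_apply]
    split_ifs <;> simp
  · show max ((EuclideanSpace.single 0 1 : EuclideanSpace ℝ (Fin (n + 1))) k) 0 / _ = 0
    rw [EuclideanSpace.single_apply, if_neg]
    · simp
    · rintro rfl; exact hp rfl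

/-- Every admissible weight comes from a unit vector. -/
theorem exists_wt (ε : Fin (n + 1) → Bool) (y : Fin (n + 1) × Bool → ℝ) (hy : ∀ p, 0 ≤ y p)
    (hsum : ∑ p, y p = 1) (hsupp : ∀ p, y p ≠ 0 → p.2 = ε p.1) : ∃ u : Sph n, wt u.1 = y := by
  let x : EuclideanSpace ℝ (Fin (n + 1)) := WithLp.toLp 2 fun k => y (k, true) - y (k, false)
  have hxk : ∀ k, x k = y (k, true) - y (k, false) := fun k => rfl
  have hzero : ∀ k, y (k, true) = 0 ∨ y (k, false) = 0 := by
    intro k
    by_contra hcon
    push Not at hcon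
    have h1 := hsupp _ hcon.1
    have h2 := hsupp _ hcon.2
    simp only at h1 h2
    rw [← h1] at h2
    exact absurd h2 (by decide)
  have habs : ∀ k, |x k| = y (k, true) + y (k, false) := by
    intro k
    rw [hxk]
    rcases hzero k with h | h
    · rw [h, zero_sub, abs_neg, abs_of_nonneg (hy _), zero_add]
    · rw [h, sub_zero, abs_of_nonneg (hy _), add_zero]
  have hl : l1 x = 1 := by
    rw [l1, Finset.sum_congr rfl fun k _ => habs k, ← hsum, Fintype.sum_prod_type]
    refine Finset.sum_congr rfl fun k _ => ?_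
    rw [Fintype.sum_bool]
  have hx : x ≠ 0 := by
    intro h
    rw [h] at hl
    simp [l1] at hl
  have hnorm : 0 < ‖x‖ := norm_pos_iff.2 hx
  have hmem : ‖x‖⁻¹ • x ∈ Metric.sphere (0 : EuclideanSpace ℝ (Fin (n + 1))) 1 := by
    rw [mem_sphere_zero_iff_norm, norm_smul, norm_inv, norm_norm]
    exact inv_mul_cancel₀ hnorm.ne'
  refine ⟨⟨‖x‖⁻¹ • x, hmem⟩, ?_⟩
  have hl1 : l1 (‖x‖⁻¹ • x) = ‖x‖⁻¹ := by
    have h1 : ∀ k, |(‖x‖⁻¹ • x) k| = ‖x‖⁻¹ * |x k| := by
      intro k
      rw [PiLp.smul_apply, smul_eq_mul, abs_mul, abs_of_nonneg (by positivity : 0 ≤ ‖x‖⁻¹)]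
    rw [l1, Finset.sum_congr rfl fun k _ => h1 k, ← Finset.mul_sum]
    have : ∑ k, |x k| = 1 := hl
    rw [this, mul_one]
  have hinv : 0 < ‖x‖⁻¹ := inv_pos.2 hnorm
  funext p
  rcases p with ⟨k, _ | _⟩
  · show max (-(‖x‖⁻¹ • x) k) 0 / l1 (‖x‖⁻¹ • x) = y (k, false)
    rw [hl1, PiLp.smul_apply, smul_eq_mul, hxk]
    rcases hzero k with h | h
    · rw [h, zero_sub, max_eq_left]
      · field_simp
      · rw [mul_neg, neg_neg]
        exact mul_nonneg hinv.le (hy _)
    · rw [h, sub_zero, max_eq_right, zero_div]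
      rw [neg_nonpos]
      exact mul_nonneg hinv.le (hy _)
  · show max ((‖x‖⁻¹ • x) k) 0 / l1 (‖x‖⁻¹ • x) = y (k, true)
    rw [hl1, PiLp.smul_apply, smul_eq_mul, hxk]
    rcases hzero k with h | h
    · rw [h, zero_sub, max_eq_right, zero_div]
      rw [mul_neg, neg_nonpos]
      exact mul_nonneg hinv.le (hy _)
    · rw [h, sub_zero, max_eq_left]
      · field_simp
      · exact mul_nonneg hinv.le (hy _)

end

section wedge

variable {m : ℕ} (d : Fin m → ℕ)

/-- The vertices: a common vertex and the vertices of the cross-polytopes. -/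
abbrev WV : Type := Unit ⊕ (Σ i : Fin m, Fin (d i + 1) × Bool)

/-- The vertices of the `i`-th cross-polytope; one of them is the common vertex. -/
def bv (i : Fin m) (p : Fin (d i + 1) × Bool) : WV d :=
  if p = (0, true) then Sum.inl () else Sum.inr ⟨i, p⟩

theorem bv_injective (i : Fin m) : Function.Injective (bv d i) := by
  intro p q h
  unfold bv at h
  split_ifs at h with h1 h2 h2
  · rw [h1, h2]
  · simpa using h

theorem bv_of_ne {i : Fin m} {p : Fin (d i + 1) × Bool} (h : p ≠ (0, true)) :
    bv d i p = Sum.inr ⟨i, p⟩ := if_neg h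

theorem bv_base (i : Fin m) : bv d i (0, true) = Sum.inl () := if_pos rfl

/-- The one-point union of the boundaries of the cross-polytopes. -/
def wedgeComplex : Set (Finset (WV d)) :=
  {s | s.Nonempty ∧ (s ⊆ {Sum.inl ()} ∨
    ∃ (i : Fin m) (ε : Fin (d i + 1) → Bool), ∀ v ∈ s, ∃ k, v = bv d i (k, ε k))}

theorem push_bv (i : Fin m) (y : Fin (d i + 1) × Bool → ℝ) (p : Fin (d i + 1) × Bool) :
    push (bv d i) y (bv d i p) = y p := by
  classical
  unfold push
  rw [Finset.sum_eq_single p, if_pos rfl]
  · intro q _ hq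
    rw [if_neg fun h => hq (bv_injective d i h)]
  · intro h; exact absurd (Finset.mem_univ _) h

theorem push_bv_other (i : Fin m) (y : Fin (d i + 1) × Bool → ℝ) {v : WV d}
    (h : ∀ p, bv d i p ≠ v) : push (bv d i) y v = 0 := by
  classical
  unfold push
  exact Finset.sum_eq_zero fun p _ => if_neg (h p)

/-- The vertex `*` as a point. -/
noncomputable def star : WV d → ℝ := fun v => if v = Sum.inl () then 1 else 0

theorem push_base (i : Fin m) : push (bv d i) (wt (base (d i)).1) = star d := by
  classical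
  have h1 : wt (base (d i)).1 (0, true) = 1 := by
    have h2 := wt_sum (sph_ne_zero (base (d i)))
    rwa [Finset.sum_eq_single (0, true) (fun p _ hp => wt_base p hp)
      (fun h => absurd (Finset.mem_univ _) h)] at h2
  funext v
  by_cases hv : ∃ p, bv d i p = v
  · obtain ⟨p, rfl⟩ := hv
    rw [push_bv]
    by_cases hp : p = (0, true)
    · subst hp
      rw [h1, bv_base]
      simp [star]
    · rw [wt_base p hp, bv_of_ne d hp]
      simp [star]
  · push Not at hv
    rw [push_bv_other d i _ hv]
    rw [star, if_neg]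
    rintro rfl
    exact hv (0, true) (bv_base d i)

/-- The map on the disjoint union. -/
noncomputable def phi : PreWedge d → Realization (wedgeComplex d)
  | .inl () => ⟨star d, by
      intro v; unfold star; split_ifs <;> norm_num, by simp [star],
      {Sum.inl ()}, ⟨⟨_, Finset.mem_singleton_self _⟩, Or.inl subset_rfl⟩, by
        intro v hv
        rw [Finset.mem_singleton]
        by_contra h
        exact hv (if_neg h)⟩
  | .inr ⟨i, u⟩ => ⟨push (bv d i) (wt u.1), push_nonneg _ (wt_nonneg u.1),
      (push_sum _ _).trans (wt_sum (sph_ne_zero u)), by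
        classical
        let ε : Fin (d i + 1) → Bool := fun k => decide (0 < (u.1 : EuclideanSpace ℝ _) k)
        refine ⟨Finset.univ.image fun k => bv d i (k, ε k),
          ⟨⟨_, Finset.mem_image_of_mem _ (Finset.mem_univ 0)⟩, Or.inr ⟨i, ε, ?_⟩⟩, ?_⟩
        · intro v hv
          obtain ⟨k, -, rfl⟩ := Finset.mem_image.1 hv
          exact ⟨k, rfl⟩
        · intro v hv
          obtain ⟨⟨k, b⟩, rfl, hp⟩ := push_ne_zero _ hv
          have hb : b = ε k := by
            rcases b with _ | _
            · symm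
              simp only [ε, decide_eq_false_iff_not]
              intro h
              apply hp
              show max (-(u.1 : EuclideanSpace ℝ _) k) 0 / _ = 0
              rw [max_eq_right (by linarith), zero_div]
            · symm
              simp only [ε, decide_eq_true_eq]
              by_contra h
              apply hp
              show max ((u.1 : EuclideanSpace ℝ _) k) 0 / _ = 0
              rw [max_eq_right (not_lt.1 h), zero_div]
          rw [hb]
          exact Finset.mem_image_of_mem _ (Finset.mem_univ k)⟩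

theorem continuous_phi : Continuous (phi d) := by
  rw [continuous_sum_dom]
  constructor
  · exact continuous_of_const fun _ _ => rfl
  · rw [continuous_sigma_iff]
    intro i
    refine Continuous.subtype_mk ?_ _
    exact (continuous_push (bv d i)).comp continuous_wt

/-- The map on the wedge. -/
noncomputable def phiW : Wedge d → Realization (wedgeComplex d) :=
  Quot.lift (phi d) (by
    rintro a b ⟨i, rfl, rfl⟩
    exact Subtype.ext (push_base d i).symm)

theorem continuous_phiW : Continuous (phiW d) := continuous_quot_lift _ (continuous_phi d)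

theorem phi_inr (i : Fin m) (u : Sph (d i)) :
    (phi d (Sum.inr ⟨i, u⟩)).1 = push (bv d i) (wt u.1) := rfl

theorem phi_inl : (phi d (Sum.inl ())).1 = star d := rfl

theorem surjective_phi : Function.Surjective (phi d) := by
  classical
  intro y
  obtain ⟨s, ⟨-, hs⟩, hy⟩ := y.2.2.2
  rcases hs with hs | ⟨i, ε, hs⟩
  · refine ⟨Sum.inl (), Subtype.ext ?_⟩
    rw [phi_inl]
    have h0 : ∀ v, v ≠ Sum.inl () → y.1 v = 0 := by
      intro v hv
      by_contra h
      exact hv (Finset.mem_singleton.1 (hs (hy v h)))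
    have h1 := y.2.2.1
    rw [Finset.sum_eq_single (Sum.inl ()) (fun v _ hv => h0 v hv)
      (fun h => absurd (Finset.mem_univ _) h)] at h1
    funext v
    unfold star
    split_ifs with hv
    · rw [hv, h1]
    · exact (h0 v hv).symm
  · have hout : ∀ v, (∀ p, bv d i p ≠ v) → y.1 v = 0 := by
      intro v hv
      by_contra h
      obtain ⟨k, hk⟩ := hs v (hy v h)
      exact hv _ hk.symm
    have hsum : ∑ p, y.1 (bv d i p) = 1 := by
      refine Eq.trans ?_ y.2.2.1
      rw [← Finset.sum_image (f := y.1) (g := bv d i) (s := Finset.univ)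
        fun p _ q _ h => bv_injective d i h]
      refine Finset.sum_subset (Finset.subset_univ _) fun v _ hv => hout v fun p hp => hv ?_
      exact Finset.mem_image.2 ⟨p, Finset.mem_univ _, hp⟩
    obtain ⟨u, hu⟩ := exists_wt ε (fun p => y.1 (bv d i p)) (fun p => y.2.1 _) hsum (by
      intro p hp
      obtain ⟨k, hk⟩ := hs _ (hy _ hp)
      rw [bv_injective d i hk])
    refine ⟨Sum.inr ⟨i, u⟩, Subtype.ext ?_⟩
    rw [phi_inr, hu]
    funext v
    by_cases hv : ∃ p, bv d i p = v
    · obtain ⟨p, rfl⟩ := hv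
      rw [push_bv]
    · push Not at hv
      rw [push_bv_other d i _ hv, hout v hv]

theorem star_inr (i : Fin m) (p : Fin (d i + 1) × Bool) : star d (Sum.inr ⟨i, p⟩) = 0 := by
  simp [star]

theorem phi_inl_inr {i : Fin m} {u : Sph (d i)} (h : phi d (Sum.inl ()) = phi d (Sum.inr ⟨i, u⟩)) :
    u = base (d i) := by
  have h1 := congrArg Subtype.val h
  rw [phi_inl, phi_inr] at h1
  apply eq_base_of_wt
  intro p hp
  rw [← push_bv d i (wt u.1) p, ← h1, bv_of_ne d hp, star_inr]

theorem phi_inr_inr {i j : Fin m} (hij : i ≠ j) {u : Sph (d i)} {v : Sph (d j)}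
    (h : phi d (Sum.inr ⟨i, u⟩) = phi d (Sum.inr ⟨j, v⟩)) : u = base (d i) := by
  have h1 := congrArg Subtype.val h
  rw [phi_inr, phi_inr] at h1
  apply eq_base_of_wt
  intro p hp
  rw [← push_bv d i (wt u.1) p, h1]
  apply push_bv_other
  intro q hq
  rw [bv_of_ne d hp] at hq
  unfold bv at hq
  split_ifs at hq with h2
  simp only [Sum.inr.injEq, Sigma.mk.injEq] at hq
  exact hij hq.1.symm

theorem injective_phiW : Function.Injective (phiW d) := by
  intro a b
  induction a using Quot.ind with | _ a => ?_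
  induction b using Quot.ind with | _ b => ?_
  intro h
  change phi d a = phi d b at h
  have hbase : ∀ i, (Quot.mk _ (Sum.inl ()) : Wedge d) = Quot.mk _ (Sum.inr ⟨i, base (d i)⟩) :=
    fun i => Quot.sound ⟨i, rfl, rfl⟩
  rcases a with ⟨⟩ | ⟨i, u⟩ <;> rcases b with ⟨⟩ | ⟨j, v⟩
  · rfl
  · rw [phi_inl_inr d h]
    exact hbase j
  · rw [phi_inl_inr d h.symm]
    exact (hbase i).symm
  · by_cases hij : i = j
    · subst hij
      have h1 := congrArg Subtype.val h
      rw [phi_inr, phi_inr] at h1
      have : u = v := by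
        apply wt_injective
        funext p
        rw [← push_bv d i (wt u.1) p, h1, push_bv]
      rw [this]
    · rw [phi_inr_inr d hij h, phi_inr_inr d (Ne.symm hij) h.symm]
      exact (hbase i).symm.trans (hbase j)

instance instCompactWedge : CompactSpace (Wedge d) :=
  inferInstanceAs (CompactSpace (Quot _))

theorem wedge_homeo : Nonempty (Wedge d ≃ₜ Realization (wedgeComplex d)) := by
  have hsurj : Function.Surjective (phiW d) := by
    intro y
    obtain ⟨a, rfl⟩ := surjective_phi d y
    exact ⟨Quot.mk _ a, rfl⟩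
  exact ⟨Continuous.homeoOfEquivCompactToT2
    (f := Equiv.ofBijective (phiW d) ⟨injective_phiW d, hsurj⟩) (continuous_phiW d)⟩

/-- Every wedge of spheres is homotopy equivalent to an avalanche complex. -/
theorem main_wedge : ∃ (V : Type) (_ : Fintype V) (G : Digraph V) (c₀ : V → ℕ),
    LooplessConnected G ∧
      Nonempty (ContinuousMap.HomotopyEquiv (Realization (avalanche G c₀)) (Wedge d)) := by
  classical
  obtain ⟨V, hV, G, c₀, h1, ⟨h2⟩⟩ := main_complex (wedgeComplex d) (fun s hs => hs.1) (by
    rintro s ⟨-, hs⟩ s' hs' hne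
    refine ⟨hne, ?_⟩
    rcases hs with hs | ⟨i, ε, hs⟩
    · exact Or.inl (hs'.trans hs)
    · exact Or.inr ⟨i, ε, fun v hv => hs v (hs' hv)⟩)
    ⟨{Sum.inl ()}, ⟨_, Finset.mem_singleton_self _⟩, Or.inl subset_rfl⟩
  obtain ⟨h3⟩ := wedge_homeo d
  exact ⟨V, hV, G, c₀, h1, ⟨h2.trans h3.symm.toHomotopyEquiv⟩⟩

end wedge

end Q181.Aval
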